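import Pool.Agent.Helper9.BS.Final

/-!
# MP_06d6b9_co: the exact obstruction for line sets covering the complement of a Baer subplane
-/

set_option autoImplicit false

open Finset
open scoped Classical

namespace Pool.Agent.Results.MP_06d6b9_co.CriticalStructure

open Configuration Pool.Agent.Helper28.Baer Pool.Agent.Helper9.BS

section

variable {P L : Type*} [Fintype P] [Fintype L] [Membership P L]

/-- `(P0, L0)` and `(P1, L1)` are Baer subplanes twisted by the line set `K` and the point set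
`F`: both sets have `s ^ 2 + s + 1` elements, and

* the number of lines of `K` through a point `p` is `1 + s [p ∈ F] + [p ∈ P1] - [p ∈ P0]`,
* the number of points of `F` on a line `l` is `1 + s [l ∈ K] + [l ∈ L0] - [l ∈ L1]`. -/
structure Twisted (s : ℕ) (P0 : Finset P) (L0 : Finset L) (P1 : Finset P) (L1 : Finset L)
    (F : Finset P) (K : Finset L) : Prop where
  subplane : IsSubplane s P1 L1
  card_points : #F = s ^ 2 + s + 1
  card_lines : #K = s ^ 2 + s + 1
  lines : ∀ p : P, (#{l ∈ K | p ∈ l} : ℤ) =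
    1 + s * (if p ∈ F then 1 else 0) + (if p ∈ P1 then 1 else 0) - (if p ∈ P0 then 1 else 0)
  points : ∀ l : L, (#{p ∈ F | p ∈ l} : ℤ) =
    1 + s * (if l ∈ K then 1 else 0) + (if l ∈ L0 then 1 else 0) - (if l ∈ L1 then 1 else 0)

end

/-- Let `P`, `L` be an arbitrary projective plane of order `s ^ 2`, `s ≥ 20`, let `(P0, L0)` be a
subplane of order `s`, and let `K` be a set of lines. Then `K` is a counterexample for this
subplane (at most `s ^ 2 + s + 1` lines, covering all points outside `P0`, missing a point) if and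
only if there are a second subplane `(P1, L1)` of order `s` and a point set `F` such that the two
subplanes are twisted by `F` and `K`, and `P1 ∪ F` does not contain `P0`. In this case `F` meets
all lines outside `L1` and misses a line of `L1`, and the two subplanes have either exactly one
point and one line in common, then `s ^ 2 - 1` points are missed, or exactly `s + 1` points and
`s + 1` lines, then `s ^ 2 - s` or `s ^ 2 - s - 1` points are missed. -/
theorem result {P L : Type*} [Fintype P] [Fintype L] [Membership P L] [ProjectivePlane P L]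
    (s : ℕ) (hs : 20 ≤ s) (hord : ProjectivePlane.order P L = s ^ 2) (P0 : Finset P)
    (L0 : Finset L) (hsub : IsSubplane s P0 L0) (K : Finset L) :
    ((#K ≤ s ^ 2 + s + 1 ∧ (∀ p ∉ P0, ∃ l ∈ K, p ∈ l) ∧ ∃ p : P, ∀ l ∈ K, p ∉ l) ↔
      ∃ (P1 : Finset P) (L1 : Finset L) (F : Finset P), Twisted s P0 L0 P1 L1 F K ∧
        ∃ p ∈ P0, p ∉ P1 ∧ p ∉ F) ∧
    ∀ (P1 : Finset P) (L1 : Finset L) (F : Finset P), Twisted s P0 L0 P1 L1 F K →
      (∃ p ∈ P0, p ∉ P1 ∧ p ∉ F) →
      (∀ l ∉ L1, ∃ p ∈ F, p ∈ l) ∧ (∃ l ∈ L1, ∀ p ∈ F, p ∉ l) ∧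
      #(P0 ∩ P1) = #(L0 ∩ L1) ∧ #(F ∩ P1) = #(K ∩ L0) ∧ #(F ∩ P0) = #(K ∩ L1) ∧
      ((#(P0 ∩ P1) = 1 ∧ #{p : P | ∀ l ∈ K, p ∉ l} + 1 = s ^ 2 ∧
          #(F ∩ P1) ≤ 1 ∧ #(F ∩ P0) = #(F ∩ P1) + s + 1) ∨
        (#(P0 ∩ P1) = s + 1 ∧
          (#{p : P | ∀ l ∈ K, p ∉ l} + s = s ^ 2 ∨
            #{p : P | ∀ l ∈ K, p ∉ l} + s + 1 = s ^ 2) ∧
          #(F ∩ P1) ≤ 2 ∧ #(F ∩ P0) = #(F ∩ P1) + s)) := by
  have hX : Fintype.card L = s ^ 4 + s ^ 2 + 1 := by
    rw [ProjectivePlane.card_lines P L, hord]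
    ring
  have hpl := pl_of_subplane hord hsub
  have hn : ∀ p : P, 1 ≤ n (fun (l : L) (p : P) => p ∈ l) K p ↔ ∃ l ∈ K, p ∈ l := by
    intro p
    unfold n
    rw [Nat.succ_le_iff, Finset.card_pos]
    constructor
    · rintro ⟨l, hl⟩
      rw [Finset.mem_filter] at hl
      exact ⟨l, hl⟩
    · rintro ⟨l, hl⟩
      exact ⟨l, Finset.mem_filter.2 hl⟩
  have hn0 : ∀ p : P, n (fun (l : L) (p : P) => p ∈ l) K p = 0 ↔ ∀ l ∈ K, p ∉ l := by
    intro p
    exact n_eq_zero
  have hz : zc (fun (l : L) (p : P) => p ∈ l) K = #{p : P | ∀ l ∈ K, p ∉ l} := by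
    unfold zc
    congr 1
    ext p
    simp only [Finset.mem_filter, Finset.mem_univ, true_and, hn0]
  -- a twisted pair gives the abstract structure
  have htw : ∀ (P1 : Finset P) (L1 : Finset L) (F : Finset P), Twisted s P0 L0 P1 L1 F K →
      Tw (fun (l : L) (p : P) => p ∈ l) s L0 P0 L1 P1 K F := fun P1 L1 F h =>
    ⟨hpl, pl_of_subplane hord h.subplane, hX, h.card_lines, h.card_points, h.lines, h.points⟩
  have hcov : ∀ (P1 : Finset P) (L1 : Finset L) (F : Finset P), Twisted s P0 L0 P1 L1 F K →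
      ∀ p ∉ P0, 1 ≤ n (fun (l : L) (p : P) => p ∈ l) K p := by
    intro P1 L1 F h p hp
    have h1 := h.lines p
    rw [if_neg hp] at h1
    have h2 : (1 : ℤ) ≤ n (fun (l : L) (p : P) => p ∈ l) K p := by
      unfold n
      rw [h1]
      have h3 : (0 : ℤ) ≤ s := by positivity
      split_ifs <;> linarith
    exact_mod_cast h2
  constructor
  · constructor
    · rintro ⟨h1, h2, h3⟩
      obtain ⟨L1, P1, F, hT, -⟩ := main hpl hX hs K h1 (fun p hp => (hn p).2 (h2 p hp))
        (by obtain ⟨p, hp⟩ := h3; exact ⟨p, (hn0 p).2 hp⟩)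
      refine ⟨P1, L1, F, ⟨subplane_of_pl (by omega) hT.p1, hT.cF, hT.cS, hT.nb, hT.dx⟩, ?_⟩
      obtain ⟨p, hp⟩ := h3
      obtain ⟨h4, h5, h6⟩ := hT.n_zero.1 ((hn0 p).2 hp)
      exact ⟨p, h4, h6, h5⟩
    · rintro ⟨P1, L1, F, hT, p, hp, hp1, hpF⟩
      refine ⟨hT.card_lines.le, fun q hq => (hn q).1 (hcov P1 L1 F hT q hq), p, ?_⟩
      exact (hn0 p).1 ((htw P1 L1 F hT).n_zero.2 ⟨hp, hpF, hp1⟩)
  · rintro P1 L1 F hT ⟨p, hp, hp1, hpF⟩
    have hT' := htw P1 L1 F hT
    have hC : Crit (fun (l : L) (p : P) => p ∈ l) s L0 P0 K :=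
      ⟨hpl, hs, hT.card_lines, hcov P1 L1 F hT, p, hp, hT'.n_zero.2 ⟨hp, hpF, hp1⟩⟩
    have htypes := types hC hT'
    have e1 := hT'.eq_a (by omega)
    have e2 := hT'.r3 (by omega)
    rw [hz] at htypes
    refine ⟨?_, ?_, e2.symm, e1.1.symm, e1.2.symm, ?_⟩
    · intro l hl
      have h1 := hT.points l
      rw [if_neg hl] at h1
      have h2 : (1 : ℤ) ≤ #{p ∈ F | p ∈ l} := by
        rw [h1]
        have h3 : (0 : ℤ) ≤ s := by positivity
        split_ifs <;> linarith
      have h3 : 0 < #{p ∈ F | p ∈ l} := by exact_mod_cast h2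
      obtain ⟨q, hq⟩ := Finset.card_pos.1 h3
      rw [Finset.mem_filter] at hq
      exact ⟨q, hq⟩
    · have h1 : #(L0 ∩ L1) + #(K ∩ L1) < #L1 := by
        have h2 := hT'.p1.cardX0
        have hs2 : 20 * s ≤ s ^ 2 := by nlinarith
        have e3 := e1.2
        rcases htypes with h3 | h3 <;> omega
      have h2 : ∃ l ∈ L1, l ∉ (L0 ∩ L1) ∪ (K ∩ L1) := by
        by_contra hcon
        push Not at hcon
        have h3 := (Finset.card_le_card (show L1 ⊆ _ from hcon)).trans
          (Finset.card_union_le _ _)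
        omega
      obtain ⟨l, hl, hl2⟩ := h2
      rw [Finset.mem_union, Finset.mem_inter, Finset.mem_inter] at hl2
      refine ⟨l, hl, ?_⟩
      have h3 : d (fun (l : L) (p : P) => p ∈ l) F l = 0 :=
        hT'.dual.n_zero.2 ⟨hl, by tauto, by tauto⟩
      unfold d at h3
      rw [Finset.card_eq_zero, Finset.filter_eq_empty_iff] at h3
      exact fun q hq => h3 hq
    · rw [← e1.1]
      rcases htypes with h1 | h1
      · exact Or.inl h1
      · exact Or.inr h1

end Pool.Agent.Results.MP_06d6b9_co.CriticalStructure
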