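import Pool.Agent.Helper9.BS.Final
import Pool.Agent.Helper9.BS.Arith

/-!
# MP_06d6b9_co: covering sets and the lines of the Baer subplane
-/

set_option autoImplicit false

open Finset
open scoped Classical

namespace Pool.Agent.Results.MP_06d6b9_co.SubplaneLines

open Configuration Pool.Agent.Helper28.Baer Pool.Agent.Helper9.BS

/-- Let `P`, `L` be an arbitrary projective plane of order `s ^ 2`, `s ≥ 20`, let `(P0, L0)` be a
subplane of order `s`, and let `K` be a set of at most `s ^ 2 + s + 1` lines covering all points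
outside `P0`. Then `K` covers all points, or `K` contains exactly one or exactly two lines of
`L0`, or `K` contains no line of `L0` and `s + 1` is a perfect square (if `4` divides
`s (s + 1)`) or `s - 1` is a perfect square (if not). -/
theorem result {P L : Type*} [Fintype P] [Fintype L] [Membership P L] [ProjectivePlane P L]
    (s : ℕ) (hs : 20 ≤ s) (hord : ProjectivePlane.order P L = s ^ 2) (P0 : Finset P)
    (L0 : Finset L) (hsub : IsSubplane s P0 L0) (K : Finset L) (hcard : #K ≤ s ^ 2 + s + 1)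
    (hcov : ∀ p ∉ P0, ∃ l ∈ K, p ∈ l) :
    (∀ p : P, ∃ l ∈ K, p ∈ l) ∨ #(K ∩ L0) = 1 ∨ #(K ∩ L0) = 2 ∨
      (#(K ∩ L0) = 0 ∧ (4 ∣ s * (s + 1) → IsSquare (s + 1)) ∧
        (¬ 4 ∣ s * (s + 1) → IsSquare (s - 1))) := by
  by_cases hall : ∀ p : P, ∃ l ∈ K, p ∈ l
  · exact Or.inl hall
  right
  have hX : Fintype.card L = s ^ 4 + s ^ 2 + 1 := by
    rw [ProjectivePlane.card_lines P L, hord]
    ring
  have hpl := pl_of_subplane hord hsub
  have hn : ∀ p : P, 1 ≤ n (fun (l : L) (p : P) => p ∈ l) K p ↔ ∃ l ∈ K, p ∈ l := by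
    intro p
    unfold n
    rw [Nat.succ_le_iff, Finset.card_pos]
    constructor
    · rintro ⟨l, hl⟩
      rw [Finset.mem_filter] at hl
      exact ⟨l, hl⟩
    · rintro ⟨l, hl⟩
      exact ⟨l, Finset.mem_filter.2 hl⟩
  push Not at hall
  obtain ⟨g, hg⟩ := hall
  have hg0 : n (fun (l : L) (p : P) => p ∈ l) K g = 0 := by
    rw [n_eq_zero]
    exact hg
  have hblk : ∀ p ∉ P0, 1 ≤ n (fun (l : L) (p : P) => p ∈ l) K p := fun p hp =>
    (hn p).2 (hcov p hp)
  have hgB : g ∈ P0 := by
    by_contra hgN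
    have := hblk g hgN
    omega
  have hC : Crit (fun (l : L) (p : P) => p ∈ l) s L0 P0 K := by
    rcases main_abs hpl hX hs K hcard hblk with h | ⟨h, -⟩
    · have := h g
      omega
    · exact ⟨hpl, hs, h, hblk, g, hgB, hg0⟩
  have hT := tw_of_crit hC hX
  have ht := types hC hT
  by_cases h0 : #(K ∩ L0) = 0
  · right; right
    refine ⟨h0, ?_⟩
    apply square_of_crit hC hT
    intro l hl hl0
    rw [Finset.card_eq_zero, Finset.eq_empty_iff_forall_notMem] at h0
    exact h0 l (Finset.mem_inter.2 ⟨hl, hl0⟩)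
  · rcases ht with h | h <;> omega

end Pool.Agent.Results.MP_06d6b9_co.SubplaneLines
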